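import Mathlib

/-!
# Measure distal transformations
-/

set_option autoImplicit false

open Filter Topology Set MeasureTheory

namespace Pool.Agent.W922.MD

section Defs

variable {X : Type} (A B : MeasurableSpace X) [m : MeasurableSpace X]

/-- Every set of the σ-algebra `A` agrees, up to a null set, with a set of the σ-algebra `B`. -/
def AELe (μ : Measure X) : Prop :=
  ∀ s : Set X, MeasurableSet[A] s → ∃ t : Set X, MeasurableSet[B] t ∧ s =ᵐ[μ] t

/-- The σ-algebras `A` and `B` agree up to null sets. -/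
def AEEq (μ : Measure X) : Prop := AELe A B μ ∧ AELe B A μ

/-- A factor of `T`, as a sub-σ-algebra `A` with `T⁻¹ A = A` up to null sets. -/
def IsFactor (μ : Measure X) (T : X → X) : Prop :=
  A ≤ m ∧ AEEq (A.comap T) A μ

/-- `f` is a bounded `A`-measurable complex function. -/
def BddMeas (f : X → ℂ) : Prop :=
  StronglyMeasurable[A] f ∧ ∃ C : ℝ, ∀ x, ‖f x‖ ≤ C

/-- The elements `u 0, …, u (r - 1)` of `L²(B)` generate a `T`-invariant module over `L^∞(A)`. -/
def FiniteRank (μ : Measure X) (T : X → X) (r : ℕ) (u : Fin r → X → ℂ) : Prop :=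
  (∀ i, MemLp (u i) 2 μ ∧ StronglyMeasurable[B] (u i)) ∧
  ∃ a : Fin r → Fin r → X → ℂ, (∀ i j, BddMeas A (a i j)) ∧
    ∀ i, (fun x => u i (T x)) =ᵐ[μ] fun x => ∑ j, a i j x * u j x

/-- The factor `B` of `T` is an isometric (compact) extension of the factor `A`: `A ⊆ B`, and the
elements of the `T`-invariant modules of finite rank over `L^∞(A)` are dense in `L²(B)`. -/
def IsometricExt (μ : Measure X) (T : X → X) : Prop :=
  AELe A B μ ∧ ∀ g : X → ℂ, MemLp g 2 μ → StronglyMeasurable[B] g → ∀ ε : ℝ, 0 < ε →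
    ∃ (r : ℕ) (u c : Fin r → X → ℂ), FiniteRank A B μ T r u ∧ (∀ j, BddMeas A (c j)) ∧
      eLpNorm (fun x => g x - ∑ j, c j x * u j x) 2 μ < ENNReal.ofReal ε

/-- Measure distality (Furstenberg, Zimmer): there are an ordinal `η` and factors `A α`, `α ≤ η`,
such that `A 0` is trivial, `A η` is the system itself, `A (α + 1)` is an isometric extension of
`A α` for `α < η`, and for limit `α ≤ η` the factor `A α` is the inverse limit of the `A β`,
`β < α`, that is, it is generated by them. -/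
def MeasureDistal {X : Type} [m : MeasurableSpace X] (μ : Measure X) (T : X → X) : Prop :=
  ∃ (η : Ordinal.{0}) (A : Ordinal.{0} → MeasurableSpace X),
    (∀ α ≤ η, IsFactor (A α) μ T) ∧ AEEq (A 0) ⊥ μ ∧ AEEq (A η) m μ ∧
    (∀ α < η, IsometricExt (A α) (A (α + 1)) μ T) ∧
    ∀ α ≤ η, Order.IsSuccLimit α → AEEq (A α) (⨆ β : Iio α, A β.1) μ

end Defs

section

variable {X : Type} {A B : MeasurableSpace X} [m : MeasurableSpace X]

theorem AELe.of_le {μ : Measure X} (h : A ≤ B) : AELe A B μ :=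
  fun s hs => ⟨s, h s hs, EventuallyEq.rfl⟩

theorem AEEq.refl (μ : Measure X) : AEEq A A μ :=
  ⟨.of_le le_rfl, .of_le le_rfl⟩

end

variable {X : Type} [m : MeasurableSpace X]

/-- a finite tower -/
theorem measureDistal_of_finite {μ : Measure X} {T : X → X} (n : ℕ) (A : ℕ → MeasurableSpace X)
    (h1 : ∀ i ≤ n, IsFactor (A i) μ T) (h2 : A 0 = ⊥) (h3 : A n = m)
    (h4 : ∀ i < n, IsometricExt (A i) (A (i + 1)) μ T) : MeasureDistal μ T := by
  classical
  let B : Ordinal.{0} → MeasurableSpace X := fun α =>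
    if h : ∃ k : ℕ, α = k then A h.choose else ⊥
  have hB : ∀ k : ℕ, B k = A k := by
    intro k
    have h : ∃ k' : ℕ, (k : Ordinal.{0}) = k' := ⟨k, rfl⟩
    show (if h : ∃ k' : ℕ, (k : Ordinal.{0}) = k' then A h.choose else ⊥) = _
    rw [dif_pos h]
    have h5 : (k : Ordinal.{0}) = (h.choose : ℕ) := h.choose_spec
    rw [← Nat.cast_inj.1 h5]
  have hnat : ∀ α : Ordinal.{0}, α ≤ n → ∃ k : ℕ, k ≤ n ∧ α = k := by
    intro α hα
    obtain ⟨k, hk⟩ := Ordinal.lt_omega0.1 (hα.trans_lt (Ordinal.natCast_lt_omega0 n))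
    refine ⟨k, ?_, hk⟩
    rw [hk] at hα
    exact_mod_cast hα
  refine ⟨n, B, ?_, ?_, ?_, ?_, ?_⟩
  · intro α hα
    obtain ⟨k, hk, rfl⟩ := hnat α hα
    rw [hB]
    exact h1 k hk
  · have := hB 0
    rw [Nat.cast_zero] at this
    rw [this, h2]
    exact .refl _
  · rw [hB, h3]
    exact .refl _
  · intro α hα
    obtain ⟨k, hk, rfl⟩ := hnat α hα.le
    have hk2 : k < n := by exact_mod_cast hα
    have h5 := hB (k + 1)
    rw [Nat.cast_add, Nat.cast_one] at h5
    rw [hB, h5]
    exact h4 k hk2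
  · intro α hα hlim
    obtain ⟨k, hk, rfl⟩ := hnat α hα
    exfalso
    have h6 := Ordinal.omega0_le_of_isSuccLimit hlim
    exact absurd (Ordinal.natCast_lt_omega0 k) (not_lt.2 h6)

end Pool.Agent.W922.MD
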