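import Mathlib
import Pool.Agent.W922.Dis.Dyn

/-!
# Haar measure on the infinite torus, Fourier coefficients
-/

set_option autoImplicit false

open Filter Topology Set MeasureTheory
open scoped ComplexConjugate ENNReal InnerProductSpace

namespace Pool.Agent.W922.MD

open Pool.Agent.W922.Dis

set_option linter.unusedSectionVars false

/-- Haar probability measure -/
noncomputable def mu : Measure X := Measure.addHaarMeasure ⊤

instance : mu.IsAddHaarMeasure := Measure.isAddHaarMeasure_addHaarMeasure ⊤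

instance : IsProbabilityMeasure mu := ⟨Measure.addHaarMeasure_self⟩

instance : mu.Regular := Measure.regular_addHaarMeasure

/-- characters -/
noncomputable def ch (d : D) : C(X, ℂ) := ⟨fun x => ex (prH x d), ex_cont.comp (prH_cont d)⟩

theorem ch_apply (d : D) (x : X) : ch d x = ex (prH x d) := rfl

theorem ch_eq (τ : List ℕ → Bool) (b : ℤ) (d : D) : (SS τ b).ch d = ch d := rfl

theorem ch_norm (d : D) (x : X) : ‖ch d x‖ = 1 := ex_norm _

theorem ch_zero : ch 0 = 1 := (SS (fun _ => true) 0).ch_zero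

theorem ch_add (d d' : D) : ch (d + d') = ch d * ch d' := (SS (fun _ => true) 0).ch_add d d'

theorem ch_neg (d : D) : ch (-d) = star (ch d) := (SS (fun _ => true) 0).ch_neg d

theorem ch_neg' (d : D) (x : X) : ch (-d) x = conj (ch d x) := by
  rw [ch_neg]; rfl

theorem ch_add_pt (d : D) (x y : X) : ch d (x + y) = ch d x * ch d y := by
  rw [ch_apply, map_add, AddMonoidHom.add_apply, ex_add]; rfl

theorem ch_mul_conj (d : D) (x : X) : ch d x * conj (ch d x) = 1 := ex_mul_conj _

/-- a point at which a coordinate character is not trivial -/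
theorem exists_pt {d : D} {i : Ix} (hi : d i ≠ 0) : ∃ t : Ci, ch d (Pi.single i t) ≠ 1 := by
  refine ⟨((1 / (2 * (d i : ℝ)) : ℝ) : Ci), fun h => ?_⟩
  have h1 : prH (Pi.single i ((1 / (2 * (d i : ℝ)) : ℝ) : Ci)) d = ((1 / 2 : ℝ) : Ci) := by
    have h2 : (prH (Pi.single i ((1 / (2 * (d i : ℝ)) : ℝ) : Ci))) =
        (zmultiplesHom Ci ((1 / (2 * (d i : ℝ)) : ℝ) : Ci)).comp (cf i) := by
      refine hom_ext fun j => ?_
      rw [prH_single, AddMonoidHom.comp_apply, cf_apply, zmultiplesHom_apply]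
      by_cases hj : j = i
      · subst hj
        rw [Pi.single_eq_same, Finsupp.single_eq_same, one_smul]
      · rw [Pi.single_eq_of_ne hj, Finsupp.single_eq_of_ne (Ne.symm hj), zero_smul]
    rw [h2, AddMonoidHom.comp_apply, cf_apply, zmultiplesHom_apply, ← AddCircle.coe_zsmul]
    congr 1
    rw [zsmul_eq_mul]
    have h3 : (d i : ℝ) ≠ 0 := by exact_mod_cast hi
    field_simp
  have h4 : ex (((1 / 2 : ℝ) : Ci)) = ex 0 := by
    rw [ex_zero, ← h1]; exact h
  have h5 : ((1 / 2 : ℝ) : Ci) = 0 := ex_inj h4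
  rw [AddCircle.coe_eq_zero_iff] at h5
  obtain ⟨n, hn⟩ := h5
  rw [zsmul_eq_mul, mul_one] at hn
  have h6 : (2 * n : ℝ) = 1 := by linarith
  have h7 : 2 * n = 1 := by exact_mod_cast h6
  omega

theorem integral_translate (f : X → ℂ) (y : X) : ∫ x, f (x + y) ∂mu = ∫ x, f x ∂mu :=
  integral_add_right_eq_self f y

theorem integral_ch {d : D} (hd : d ≠ 0) : ∫ x, ch d x ∂mu = 0 := by
  obtain ⟨i, hi⟩ : ∃ i, d i ≠ 0 := by
    by_contra hcon
    push Not at hcon
    exact hd (Finsupp.ext hcon)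
  obtain ⟨t, ht⟩ := exists_pt hi
  have h1 := integral_translate (fun x => ch d x) (Pi.single i t)
  have h2 : (∫ x, ch d (x + Pi.single i t) ∂mu) = (∫ x, ch d x ∂mu) * ch d (Pi.single i t) := by
    rw [← integral_mul_const]
    exact integral_congr_ae (Eventually.of_forall fun x => ch_add_pt d x _)
  rw [h2] at h1
  have h3 : (∫ x, ch d x ∂mu) * (ch d (Pi.single i t) - 1) = 0 := by
    rw [mul_sub, h1, mul_one, sub_self]
  rcases mul_eq_zero.1 h3 with h4 | h4
  · exact h4
  · exact absurd (sub_eq_zero.1 h4) ht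

theorem ind {P : C(X, ℂ) → Prop} (h0 : P 0) (h1 : ∀ d, P (ch d))
    (h2 : ∀ f g, P f → P g → P (f + g)) (h3 : ∀ (c : ℂ) f, P f → P (c • f))
    (h4 : ∀ f, (∀ ε > 0, ∃ g, P g ∧ ‖f - g‖ < ε) → P f) (f : C(X, ℂ)) : P f :=
  (SS (fun _ => true) 0).dense_ind h0 h1 h2 h3 h4 f

theorem int_C (f : C(X, ℂ)) (ν : Measure X) [IsFiniteMeasure ν] : Integrable f ν :=
  f.continuous.integrable_of_hasCompactSupport (HasCompactSupport.of_compactSpace _)

/-- criterion for a continuous map to preserve the measure -/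
theorem mp_of {H : X → X} (hH : Continuous H) (h : ∀ d : D, d ≠ 0 → ∫ x, ch d (H x) ∂mu = 0) :
    MeasurePreserving H mu mu := by
  refine ⟨hH.measurable, ?_⟩
  have : IsProbabilityMeasure (mu.map H) := Measure.isProbabilityMeasure_map hH.aemeasurable
  have h1 : ∀ f : C(X, ℂ), ∫ x, f x ∂(mu.map H) = ∫ x, f x ∂mu := by
    refine ind ?_ ?_ ?_ ?_ ?_
    · simp
    · intro d
      rw [integral_map hH.aemeasurable (ch d).continuous.aestronglyMeasurable]
      by_cases hd : d = 0
      · subst hd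
        rw [ch_zero]
        rfl
      · rw [h d hd, integral_ch hd]
    · intro f g hf hg
      have e1 := integral_add (int_C f (mu.map H)) (int_C g (mu.map H))
      have e2 := integral_add (int_C f mu) (int_C g mu)
      calc _ = _ := e1
        _ = _ := by rw [hf, hg]
        _ = _ := e2.symm
    · intro c f hf
      have e1 := integral_const_mul (μ := mu.map H) c (fun x => f x)
      have e2 := integral_const_mul (μ := mu) c (fun x => f x)
      calc _ = _ := e1
        _ = _ := by rw [hf]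
        _ = _ := e2.symm
    · intro f hf
      refine eq_of_forall_dist_le fun ε hε => ?_
      obtain ⟨g, hg, hfg⟩ := hf (ε / 2) (half_pos hε)
      have key : ∀ (ν : Measure X) [IsProbabilityMeasure ν],
          ‖(∫ x, f x ∂ν) - ∫ x, g x ∂ν‖ ≤ ε / 2 := by
        intro ν _
        rw [← integral_sub (int_C f ν) (int_C g ν)]
        refine (norm_integral_le_of_norm_le_const (C := ε / 2)
          (Eventually.of_forall fun x => ?_)).trans ?_
        · exact ((f - g).norm_coe_le_norm x).trans hfg.le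
        · simp
      rw [dist_eq_norm]
      calc ‖(∫ x, f x ∂(mu.map H)) - ∫ x, f x ∂mu‖
          = ‖((∫ x, f x ∂(mu.map H)) - ∫ x, g x ∂(mu.map H)) -
              ((∫ x, f x ∂mu) - ∫ x, g x ∂mu)‖ := by rw [hg]; congr 1; ring
        _ ≤ ε / 2 + ε / 2 := (norm_sub_le _ _).trans (add_le_add (key _) (key _))
        _ = ε := by ring
  have hmet : TopologicalSpace.MetrizableSpace X :=
    TopologicalSpace.metrizableSpace_of_t3_secondCountable _
  let _ : MetricSpace X := TopologicalSpace.metrizableSpaceMetric X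
  refine ext_of_forall_integral_eq_of_IsFiniteMeasure fun f => ?_
  have h2 := h1 ⟨fun x => ((f x : ℝ) : ℂ), Complex.continuous_ofReal.comp f.continuous⟩
  have h3 : ∀ ν : Measure X, ∫ x, ((f x : ℝ) : ℂ) ∂ν = ((∫ x, f x ∂ν : ℝ) : ℂ) := fun ν =>
    integral_ofReal
  have h4 : ((∫ x, f x ∂(mu.map H) : ℝ) : ℂ) = ((∫ x, f x ∂mu : ℝ) : ℂ) := by
    rw [← h3, ← h3]; exact h2
  exact_mod_cast h4

/-! ### Hilbert space -/

/-- characters in `L²` -/
noncomputable def chL (d : D) : Lp ℂ 2 mu := ContinuousMap.toLp 2 mu ℂ (ch d)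

theorem chL_coe (d : D) : (chL d : X → ℂ) =ᵐ[mu] ch d := ContinuousMap.coeFn_toLp mu (ch d)

theorem inner_chL (d : D) (f : Lp ℂ 2 mu) :
    ⟪chL d, f⟫_ℂ = ∫ x, f x * conj (ch d x) ∂mu := by
  rw [L2.inner_def]
  refine integral_congr_ae ?_
  filter_upwards [chL_coe d] with x hx
  rw [hx]
  simp [RCLike.inner_apply]

theorem orthonormal_chL : Orthonormal ℂ chL := by
  rw [orthonormal_iff_ite]
  intro i j
  rw [inner_chL]
  have h1 : (∫ x, (chL j : X → ℂ) x * conj (ch i x) ∂mu) = ∫ x, ch (j - i) x ∂mu := by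
    refine integral_congr_ae ?_
    filter_upwards [chL_coe j] with x hx
    rw [hx, sub_eq_add_neg, ch_add, ContinuousMap.mul_apply, ch_neg']
  rw [h1]
  split_ifs with h
  · subst h
    rw [sub_self, ch_zero]
    simp
  · exact integral_ch (sub_ne_zero.2 (Ne.symm h))

theorem span_chL : (Submodule.span ℂ (range chL)).topologicalClosure = ⊤ := by
  have h0 : (Submodule.span ℂ (range ch)).topologicalClosure = ⊤ :=
    (SS (fun _ => true) 0).span_closure
  have h1 := (ContinuousMap.toLp_denseRange ℂ mu ℂ (p := 2)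
    (by norm_num)).topologicalClosure_map_submodule h0
  rw [← h1, Submodule.map_span]
  congr 2
  ext z
  constructor
  · rintro ⟨d, rfl⟩
    exact ⟨_, ⟨d, rfl⟩, rfl⟩
  · rintro ⟨_, ⟨d, rfl⟩, rfl⟩
    exact ⟨d, rfl⟩

/-- the Hilbert basis -/
noncomputable def bas : HilbertBasis D ℂ (Lp ℂ 2 mu) :=
  HilbertBasis.mk orthonormal_chL (by rw [span_chL])

theorem bas_apply (d : D) : bas d = chL d := by
  rw [bas, HilbertBasis.coe_mk]

/-- Fourier coefficient -/
noncomputable def co (u : X → ℂ) (d : D) : ℂ := ∫ x, u x * conj (ch d x) ∂mu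

theorem co_congr {u v : X → ℂ} (h : u =ᵐ[mu] v) (d : D) : co u d = co v d :=
  integral_congr_ae (by filter_upwards [h] with x hx; rw [hx])

theorem co_toLp {u : X → ℂ} (hu : MemLp u 2 mu) (d : D) : ⟪chL d, hu.toLp u⟫_ℂ = co u d := by
  rw [inner_chL]
  exact co_congr hu.coeFn_toLp d

theorem eq_zero_of_co {u : X → ℂ} (hu : MemLp u 2 mu) (h : ∀ d, co u d = 0) : u =ᵐ[mu] 0 := by
  have h1 : hu.toLp u = 0 := by
    apply bas.repr.injective
    rw [map_zero]
    ext d
    rw [bas.repr_apply_apply, bas_apply, co_toLp, h]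
    rfl
  have h2 := hu.coeFn_toLp
  rw [h1] at h2
  exact h2.symm.trans (Lp.coeFn_zero ℂ 2 mu)

theorem finite_co {u : X → ℂ} (hu : MemLp u 2 mu) {ε : ℝ} (hε : 0 < ε) :
    {d | ε ≤ ‖co u d‖}.Finite := by
  have h1 := orthonormal_chL.inner_products_summable (hu.toLp u)
  have h2 := h1.tendsto_cofinite_zero
  have h3 := h2.eventually (gt_mem_nhds (show (0:ℝ) < ε ^ 2 by positivity))
  rw [eventually_cofinite] at h3
  refine h3.subset fun d hd => ?_
  have hd' : ε ≤ ‖co u d‖ := hd
  show ¬ ‖⟪chL d, hu.toLp u⟫_ℂ‖ ^ 2 < ε ^ 2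
  rw [co_toLp, not_lt]
  gcongr

end Pool.Agent.W922.MD
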