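import Mathlib
import Pool.Agent.W922.MD.Haar

/-!
# Ergodicity and generalised eigenfunctions
-/

set_option autoImplicit false

open Filter Topology Set MeasureTheory
open scoped ComplexConjugate ENNReal InnerProductSpace

namespace Pool.Agent.W922.MD

open Pool.Agent.W922.Dis

set_option linter.unusedSectionVars false

/-! ### Preservation of the measure -/

theorem ch_Fm (τ : List ℕ → Bool) (b : ℤ) (d : D) (x : X) :
    ch d (Fm τ b x) = ch d x * ch (Nb τ b d) x * ex (bH d) := by
  rw [ch_apply, Fm_pr, ex_add, ex_add]; rfl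

theorem ch_Fm' (τ : List ℕ → Bool) (b : ℤ) (d : D) (x : X) :
    ch d (Fm τ b x) = ch (d + Nb τ b d) x * ex (bH d) := by
  rw [ch_Fm, ch_add, ContinuousMap.mul_apply]

theorem add_Nb_ne {τ : List ℕ → Bool} {b : ℤ} {d : D} (hd : d ≠ 0) : d + Nb τ b d ≠ 0 := by
  intro h
  have h1 : Nb τ b d = -d := by rw [eq_neg_iff_add_eq_zero, add_comm]; exact h
  have h3 := Nb_nil τ b d
  rw [h1, map_neg, h1, map_neg, map_neg, h1] at h3
  simp only [neg_neg, neg_eq_zero] at h3
  exact hd h3

theorem mp_Fm (τ : List ℕ → Bool) (b : ℤ) : MeasurePreserving (Fm τ b) mu mu := by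
  refine mp_of (Fm_cont τ b) fun d hd => ?_
  simp_rw [ch_Fm']
  rw [integral_mul_const, integral_ch (add_Nb_ne hd), zero_mul]

theorem mp_cjH (f : J → ℤ) : MeasurePreserving (cjH f) mu mu := by
  refine mp_of (cjH f).continuous fun d hd => ?_
  have h1 : ∀ x, ch d (cjH f x) = ch (ev (ps f) d) x * ch d (tr f) := by
    intro x
    show ch d (lin f x + tr f) = _
    rw [ch_add_pt, ch_apply, lin_pr]
    rfl
  simp_rw [h1]
  rw [integral_mul_const, integral_ch, zero_mul]
  intro h0
  apply hd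
  have h2 : ∀ x : X, prH x d = 0 := by
    intro x
    rw [← lin_lin f x, lin_pr, h0, map_zero]
  ext i
  by_contra hne
  obtain ⟨t, ht⟩ := exists_pt hne
  apply ht
  rw [ch_apply, h2, ex_zero]

/-! ### Generalised eigenfunctions -/

theorem memLp_of_norm_one {G : X → ℂ} (hGm : AEStronglyMeasurable G mu)
    (hG : ∀ᵐ x ∂mu, ‖G x‖ = 1) : MemLp G 2 mu :=
  MemLp.of_bound hGm 1 (hG.mono fun x hx => hx.le)

section

variable {τ : List ℕ → Bool} {b : ℤ} {u : X → ℂ} {ν : D} {κ : ℂ}

theorem co_step (hu : MemLp u 2 mu) (h : ∀ᵐ x ∂mu, u (Fm τ b x) = κ * u x * ch ν x) (k : D) :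
    co u k = κ * conj (ex (bH k)) * co u (k + Nb τ b k - ν) := by
  have h1 : co u k = ∫ x, u (Fm τ b x) * conj (ch k (Fm τ b x)) ∂mu := by
    unfold co
    have h2 : AEStronglyMeasurable (fun x => u x * conj (ch k x)) (mu.map (Fm τ b)) := by
      rw [(mp_Fm τ b).map_eq]
      exact hu.aestronglyMeasurable.mul
        ((Complex.continuous_conj.comp (ch k).continuous).aestronglyMeasurable)
    have h3 := integral_map (mp_Fm τ b).measurable.aemeasurable h2
    rw [(mp_Fm τ b).map_eq] at h3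
    exact h3
  rw [h1]
  unfold co
  rw [← integral_const_mul]
  refine integral_congr_ae ?_
  filter_upwards [h] with x hx
  rw [hx, ch_Fm', map_mul, sub_eq_add_neg, ch_add _ (-ν), ContinuousMap.mul_apply, ch_neg',
    map_mul, Complex.conj_conj]
  ring

theorem co_inj (hu : MemLp u 2 mu) (hκ : ‖κ‖ = 1)
    (h : ∀ᵐ x ∂mu, u (Fm τ b x) = κ * u x * ch ν x) {k : D} (hk : co u k ≠ 0) :
    Nb τ b k = ν ∧ κ = ex (bH k) := by
  have hstep : ∀ d, ‖co u (d + Nb τ b d - ν)‖ = ‖co u d‖ := by
    intro d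
    have h1 := co_step hu h d
    rw [h1, norm_mul, norm_mul, hκ, RCLike.norm_conj, ex_norm, one_mul, one_mul]
  have hN : Nb τ b k = ν := by
    by_contra hne
    have h1 := (SS τ b).rc_inj (μ := ν) (d := k) hne
    have h2 : ∀ n, ‖co u ((SS τ b).rc ν k n)‖ = ‖co u k‖ := by
      intro n
      induction n with
      | zero => rfl
      | succ n ih => rw [← ih]; exact hstep _
    have h3 := finite_co hu (norm_pos_iff.2 hk)
    refine (Set.infinite_range_of_injective h1) (h3.subset ?_)
    rintro _ ⟨n, rfl⟩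
    exact (h2 n).ge
  refine ⟨hN, ?_⟩
  have h1 := co_step hu h k
  rw [hN, add_sub_cancel_right] at h1
  have h2 : κ * conj (ex (bH k)) = 1 := by
    have h3 : (κ * conj (ex (bH k)) - 1) * co u k = 0 := by
      rw [sub_mul, one_mul, ← h1, sub_self]
    rcases mul_eq_zero.1 h3 with h4 | h4
    · exact sub_eq_zero.1 h4
    · exact absurd h4 hk
  have h5 : ex (bH k) * conj (ex (bH k)) = 1 := ex_mul_conj _
  have h6 : conj (ex (bH k)) ≠ 0 := by
    intro h0
    rw [h0, mul_zero] at h5
    exact zero_ne_one h5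
  exact mul_right_cancel₀ h6 (h2.trans h5.symm)

theorem co_unique (hu : MemLp u 2 mu) (hκ : ‖κ‖ = 1)
    (h : ∀ᵐ x ∂mu, u (Fm τ b x) = κ * u x * ch ν x) {k k' : D} (hk : co u k ≠ 0)
    (hk' : co u k' ≠ 0) : k = k' := by
  obtain ⟨h1, h2⟩ := co_inj hu hκ h hk
  obtain ⟨h3, h4⟩ := co_inj hu hκ h hk'
  by_contra hne
  refine (SS τ b).irr (k - k') ?_ (sub_ne_zero.2 hne) 1 one_ne_zero ?_
  · show Nb τ b (k - k') = 0
    rw [map_sub, h1, h3, sub_self]
  · show 1 • bH (k - k') = 0
    rw [one_smul, map_sub, ex_inj (h2.symm.trans h4), sub_self]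

theorem memLp_ch (k : D) : MemLp (ch k) 2 mu :=
  memLp_of_norm_one (ch k).continuous.aestronglyMeasurable
    (Eventually.of_forall fun x => ch_norm k x)

theorem co_ch (k d : D) : co (ch k) d = if d = k then 1 else 0 := by
  have h1 : co (ch k) d = ∫ x, ch (k - d) x ∂mu := by
    refine integral_congr_ae (Eventually.of_forall fun x => ?_)
    show ch k x * conj (ch d x) = ch (k - d) x
    rw [sub_eq_add_neg, ch_add, ContinuousMap.mul_apply, ch_neg']
  rw [h1]
  split_ifs with hd
  · subst hd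
    rw [sub_self, ch_zero]
    simp
  · exact integral_ch (sub_ne_zero.2 (Ne.symm hd))

theorem int_mul_ch (hu : MemLp u 2 mu) (d : D) : Integrable (fun x => u x * conj (ch d x)) mu := by
  have h1 : Integrable u mu := hu.integrable (by norm_num)
  refine h1.mul_bdd (c := 1)
    ((Complex.continuous_conj.comp (ch d).continuous).aestronglyMeasurable) ?_
  exact Eventually.of_forall fun x => by
    show ‖conj (ch d x)‖ ≤ 1
    rw [RCLike.norm_conj, ch_norm]

/-- classification -/
theorem classM (hu : MemLp u 2 mu) (hκ : ‖κ‖ = 1)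
    (h : ∀ᵐ x ∂mu, u (Fm τ b x) = κ * u x * ch ν x) :
    (u =ᵐ[mu] 0) ∨ ∃ (k : D) (c : ℂ), c ≠ 0 ∧ Nb τ b k = ν ∧ κ = ex (bH k) ∧
      ∀ᵐ x ∂mu, u x = c * ch k x := by
  by_cases h0 : ∀ d, co u d = 0
  · exact Or.inl (eq_zero_of_co hu h0)
  · right
    push Not at h0
    obtain ⟨k, hk⟩ := h0
    obtain ⟨h1, h2⟩ := co_inj hu hκ h hk
    refine ⟨k, co u k, hk, h1, h2, ?_⟩
    have hv : MemLp (fun x => u x - co u k * ch k x) 2 mu :=
      hu.sub ((memLp_ch k).const_mul _)
    have h3 : ∀ d, co (fun x => u x - co u k * ch k x) d = 0 := by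
      intro d
      have h4 : co (fun x => u x - co u k * ch k x) d = co u d - co u k * co (ch k) d := by
        unfold co
        rw [← integral_const_mul, ← integral_sub (int_mul_ch hu d)
          ((int_mul_ch (memLp_ch k) d).const_mul _)]
        refine integral_congr_ae (Eventually.of_forall fun x => ?_)
        simp only
        ring
      rw [h4, co_ch]
      split_ifs with hd
      · subst hd; ring
      · rw [mul_zero, sub_zero]
        by_contra h5
        exact hd (co_unique hu hκ h h5 hk)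
    filter_upwards [eq_zero_of_co hv h3] with x hx
    exact sub_eq_zero.1 hx

/-- classification of generalised eigenfunctions of modulus one -/
theorem classM1 (hum : AEStronglyMeasurable u mu) (hu1 : ∀ᵐ x ∂mu, ‖u x‖ = 1) (hκ : ‖κ‖ = 1)
    (h : ∀ᵐ x ∂mu, u (Fm τ b x) = κ * u x * ch ν x) :
    ∃ (k : D) (c : ℂ), ‖c‖ = 1 ∧ Nb τ b k = ν ∧ κ = ex (bH k) ∧
      ∀ᵐ x ∂mu, u x = c * ch k x := by
  rcases classM (memLp_of_norm_one hum hu1) hκ h with h0 | ⟨k, c, -, h1, h2, h3⟩
  · exfalso
    obtain ⟨x, hx1, hx2⟩ := (hu1.and h0).exists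
    rw [hx2] at hx1
    simp at hx1
  · refine ⟨k, c, ?_, h1, h2, h3⟩
    obtain ⟨x, hx1, hx2⟩ := (hu1.and h3).exists
    rw [hx2, norm_mul, ch_norm, mul_one] at hx1
    exact hx1

end

/-- ergodicity -/
theorem ergodic_Fm (τ : List ℕ → Bool) (b : ℤ) : Ergodic (Fm τ b) mu := by
  refine ⟨mp_Fm τ b, ⟨fun {s} hs hinv => ?_⟩⟩
  set u : X → ℂ := s.indicator (fun _ => (1 : ℂ)) with hudef
  have hu : MemLp u 2 mu := memLp_indicator_const 2 hs 1 (Or.inr (measure_ne_top _ _))
  have h : ∀ᵐ x ∂mu, u (Fm τ b x) = 1 * u x * ch 0 x := by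
    refine Eventually.of_forall fun x => ?_
    rw [ch_zero, ContinuousMap.one_apply, one_mul, mul_one, hudef]
    have h1 : Fm τ b x ∈ s ↔ x ∈ s := by
      show x ∈ Fm τ b ⁻¹' s ↔ _
      rw [hinv]
    by_cases hx : x ∈ s
    · rw [indicator_of_mem hx, indicator_of_mem (h1.2 hx)]
    · rw [indicator_of_notMem hx, indicator_of_notMem fun h2 => hx (h1.1 h2)]
  rw [eventuallyConst_set']
  rcases classM hu norm_one h with h0 | ⟨k, c, hc, h1, h2, h3⟩
  · left
    filter_upwards [h0] with x hx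
    apply propext
    show x ∈ s ↔ x ∈ (∅ : Set X)
    constructor
    · intro hxs
      rw [hudef, indicator_of_mem hxs] at hx
      exact absurd hx one_ne_zero
    · exact fun h => absurd h (notMem_empty _)
  · right
    have hk : k = 0 := by
      by_contra hne
      refine (SS τ b).irr k h1 hne 1 one_ne_zero ?_
      show 1 • bH k = 0
      rw [one_smul]
      apply ex_inj
      rw [← h2, ex_zero]
    subst hk
    filter_upwards [h3] with x hx
    apply propext
    show x ∈ s ↔ x ∈ (univ : Set X)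
    refine ⟨fun _ => trivial, fun _ => ?_⟩
    by_contra hxs
    rw [ch_zero, ContinuousMap.one_apply, mul_one, hudef, indicator_of_notMem hxs] at hx
    exact hc hx.symm

end Pool.Agent.W922.MD
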