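import Mathlib
import Pool.Agent.W922.MD.Cls

/-!
# From a measure conjugacy to a solution
-/

set_option autoImplicit false

open Filter Topology Set MeasureTheory
open scoped ComplexConjugate ENNReal InnerProductSpace

namespace Pool.Agent.W922.MD

open Pool.Agent.W922.Dis

set_option linter.unusedSectionVars false

section Conj

variable {τ : List ℕ → Bool} {h : X → X} (hm : Measurable h)
  (hF : ∀ᵐ x ∂mu, h (Fm τ 1 x) = Fm τ 0 (h x))

/-- pull back of a character -/
noncomputable def Gd (h : X → X) (d : D) (x : X) : ℂ := ch d (h x)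

include hm in
theorem Gd_meas (d : D) : AEStronglyMeasurable (Gd h d) mu :=
  ((ch d).continuous.measurable.comp hm).aestronglyMeasurable

theorem Gd_norm (d : D) (x : X) : ‖Gd h d x‖ = 1 := ch_norm _ _

theorem Gd_add (d d' : D) (x : X) : Gd h (d + d') x = Gd h d x * Gd h d' x := by
  unfold Gd
  rw [ch_add]; rfl

theorem Gd_neg (d : D) (x : X) : Gd h (-d) x = conj (Gd h d x) := ch_neg' _ _

theorem Gd_zero (x : X) : Gd h 0 x = 1 := by
  unfold Gd
  rw [ch_zero]; rfl

include hF in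
theorem Gd_F (d : D) :
    ∀ᵐ x ∂mu, Gd h d (Fm τ 1 x) = Gd h d x * Gd h (Nb τ 0 d) x * ex (bH d) := by
  filter_upwards [hF] with x hx
  unfold Gd
  rw [hx, ch_Fm]

include hm hF in
theorem level1 {d : D} (h0 : Nb τ 0 d = 0) (h1 : Nb τ 1 d = 0) :
    ∃ c : ℂ, ‖c‖ = 1 ∧ ∀ᵐ x ∂mu, Gd h d x = c * ch d x := by
  obtain ⟨g, c, hcn, hg, hκ, hx⟩ := classM1 (τ := τ) (b := 1) (u := Gd h d) (ν := 0)
    (κ := ex (bH d)) (Gd_meas hm d) (Eventually.of_forall fun x => Gd_norm d x) (ex_norm _) (by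
      filter_upwards [Gd_F hF d] with x hx
      rw [hx, h0, Gd_zero, ch_zero, ContinuousMap.one_apply]
      ring)
  have e2 : d = g := by
    by_contra hne
    have h3 : Nb τ 1 (d - g) = 0 := by
      rw [map_sub, h1, hg, sub_zero]
    refine (SS τ 1).irr (d - g) h3 (sub_ne_zero.2 hne) 1 one_ne_zero ?_
    show 1 • bH (d - g) = 0
    rw [one_smul, map_sub, ex_inj hκ, sub_self]
  subst e2
  exact ⟨c, hcn, hx⟩

include hm hF in
theorem level2 (j : J) : ∃ g : D, Nb τ 1 g = Finsupp.single (.a j) 1 ∧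
    ∃ c : ℂ, ‖c‖ = 1 ∧ ∀ᵐ x ∂mu, Gd h (Finsupp.single (.e j) 1) x = c * ch g x := by
  obtain ⟨c, hcn, hx⟩ := level1 hm hF (d := Finsupp.single (.a j) 1) (by
    rw [Nb_single, one_smul]; rfl) (by rw [Nb_single, one_smul]; rfl)
  obtain ⟨g, c', hcn', hg, -, hx'⟩ := classM1 (τ := τ) (b := 1)
    (u := Gd h (Finsupp.single (.e j) 1)) (ν := Finsupp.single (.a j) 1)
    (κ := c * ex (bH (Finsupp.single (.e j) 1)))
    (Gd_meas hm _) (Eventually.of_forall fun x => Gd_norm _ x) (by
      rw [norm_mul, hcn, ex_norm, one_mul]) (by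
      filter_upwards [Gd_F hF (Finsupp.single (.e j) 1), hx] with x hx1 hx2
      have : Nb τ 0 (Finsupp.single (.e j) 1) = Finsupp.single (.a j) 1 := by
        rw [Nb_single, one_smul]; rfl
      rw [hx1, this, hx2]
      ring)
  exact ⟨g, hg, c', hcn', hx'⟩

include hm hF in
theorem exists_sol : ∃ f : J → ℤ, Sol τ f := by
  choose g hg hgc using level2 hm hF
  let γ : D →+ D := ev (gv g)
  have hγ : ∀ j, γ (Finsupp.single (.e j) 1) = g j := by
    intro j
    show ev (gv g) _ = _
    rw [ev_single, one_smul]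
    rfl
  -- the subgroup on which the pull back is known
  let H : AddSubgroup D :=
    { carrier := {d | ∃ c : ℂ, ‖c‖ = 1 ∧ ∀ᵐ x ∂mu, Gd h d x = c * ch (γ d) x}
      add_mem' := by
        rintro d d' ⟨c, hcn, hx⟩ ⟨c', hcn', hx'⟩
        refine ⟨c * c', by rw [norm_mul, hcn, hcn', one_mul], ?_⟩
        filter_upwards [hx, hx'] with x h1 h2
        rw [Gd_add, h1, h2, map_add, ch_add, ContinuousMap.mul_apply]
        ring
      zero_mem' := by
        refine ⟨1, norm_one, Eventually.of_forall fun x => ?_⟩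
        rw [map_zero, ch_zero, ContinuousMap.one_apply, Gd_zero, mul_one]
      neg_mem' := by
        rintro d ⟨c, hcn, hx⟩
        refine ⟨conj c, by rw [RCLike.norm_conj, hcn], ?_⟩
        filter_upwards [hx] with x h1
        rw [Gd_neg, h1, map_neg, ch_neg, map_mul]
        rfl }
  have hH : ∀ j (n : ℤ), (Finsupp.single (Ix.e j) n : D) ∈ H := by
    intro j n
    have h1 : (Finsupp.single (Ix.e j) (1 : ℤ) : D) ∈ H := by
      obtain ⟨c, hcn, hx⟩ := hgc j
      refine ⟨c, hcn, ?_⟩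
      filter_upwards [hx] with x h1
      rw [h1, hγ]
    have h2 := H.zsmul_mem h1 n
    rwa [Finsupp.smul_single, smul_eq_mul, mul_one] at h2
  have hHr : ∀ q, im τ 0 (.r q) ∈ H := by
    intro q
    rcases q with _ | ⟨⟨⟩, s, k⟩
    · rw [im_n, Finsupp.single_zero, add_zero]
      exact hH _ _
    · rw [im_f]
      exact H.add_mem (H.sub_mem (hH _ _) (hH _ _)) (hH _ _)
    · rw [im_t]
      exact H.sub_mem (H.sub_mem (hH _ _) (hH _ _)) (hH _ _)
  -- third level
  have h3 : ∀ q : Option J, ∃ ρ : D, Nb τ 1 ρ = γ (im τ 0 (.r q)) := by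
    intro q
    obtain ⟨c, hcn, hx⟩ := hHr q
    obtain ⟨ρ, -, -, hρ, -, -⟩ := classM1 (τ := τ) (b := 1) (u := Gd h (Finsupp.single (.r q) 1))
      (ν := γ (im τ 0 (.r q))) (κ := c * ex (bH (Finsupp.single (.r q) 1)))
      (Gd_meas hm _) (Eventually.of_forall fun x => Gd_norm _ x) (by
        rw [norm_mul, hcn, ex_norm, one_mul]) (by
        filter_upwards [Gd_F hF (Finsupp.single (.r q) 1), hx] with x hx1 hx2
        rw [hx1, Nb_single, one_smul, hx2]
        ring)
    exact ⟨ρ, hρ⟩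
  choose ρ hρ using h3
  -- `N₁ γ = N₁` on the span of the `e j`
  let K : AddSubgroup D := ((Nb τ 1).comp γ - Nb τ 1).ker
  have hK : ∀ j (n : ℤ), (Finsupp.single (Ix.e j) n : D) ∈ K := by
    intro j n
    have h1 : (Finsupp.single (Ix.e j) (1 : ℤ) : D) ∈ K := by
      rw [AddMonoidHom.mem_ker, AddMonoidHom.sub_apply, AddMonoidHom.comp_apply, hγ, hg,
        Nb_single, one_smul]
      exact sub_self _
    have h2 := K.zsmul_mem h1 n
    rwa [Finsupp.smul_single, smul_eq_mul, mul_one] at h2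
  have hKr : ∀ q, im τ 0 (.r q) ∈ K := by
    intro q
    rcases q with _ | ⟨⟨⟩, s, k⟩
    · rw [im_n, Finsupp.single_zero, add_zero]
      exact hK _ _
    · rw [im_f]
      exact K.add_mem (K.sub_mem (hK _ _) (hK _ _)) (hK _ _)
    · rw [im_t]
      exact K.sub_mem (K.sub_mem (hK _ _) (hK _ _)) (hK _ _)
  have hKr' : ∀ q, Nb τ 1 (γ (im τ 0 (.r q))) = Nb τ 1 (im τ 0 (.r q)) := by
    intro q
    have := hKr q
    rw [AddMonoidHom.mem_ker, AddMonoidHom.sub_apply, AddMonoidHom.comp_apply, sub_eq_zero] at this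
    exact this
  have hNc : Nb τ 1 (Finsupp.single .c 1) = 0 := by rw [Nb_single, one_smul]; rfl
  have hδ : ∀ q q', (ρ q - (Finsupp.single (Ix.r q) (1 : ℤ) : D)) (Ix.r q') = 0 := by
    intro q q'
    refine ker_r τ 1 (fun j => ?_) q'
    rw [← coef_a τ 1, map_sub, map_sub, hρ, hKr', Nb_single, one_smul, im_eq, map_add]
    split_ifs
    · rw [hNc, add_zero, sub_self]; rfl
    · rw [map_zero, add_zero, sub_self]; rfl
  have hmain : ∀ q, (γ (im τ 0 (.r q))) .c = if q = none then 1 else 0 := by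
    intro q
    rw [← hρ, coef_c, one_mul]
    have := hδ q none
    rw [Finsupp.sub_apply, sub_eq_zero] at this
    rw [this, Finsupp.single_apply]
    simp
  have hγn : ∀ j (n : ℤ), (γ (Finsupp.single (.e j) n)) .c = n * (g j) .c := by
    intro j n
    show (ev (gv g) _) .c = _
    rw [ev_single, Finsupp.smul_apply, smul_eq_mul]
    rfl
  refine ⟨fun j => (g j) .c, ⟨?_, ?_, ?_⟩⟩
  · have := hmain none
    rw [if_pos rfl] at this
    rw [im_n, Finsupp.single_zero, add_zero, hγn, one_mul] at this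
    exact this
  · intro s k
    have := hmain (some (false, s, k))
    rw [if_neg (by simp)] at this
    rw [im_f, map_add, map_sub, Finsupp.add_apply, Finsupp.sub_apply, hγn, hγn, hγn, one_mul,
      one_mul] at this
    exact this
  · intro s k
    have := hmain (some (true, s, k))
    rw [if_neg (by simp)] at this
    rw [im_t, map_sub, map_sub, Finsupp.sub_apply, Finsupp.sub_apply, hγn, hγn, hγn, one_mul,
      one_mul] at this
    exact this

end Conj

/-- measure conjugacy and infinite branches -/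
theorem branch_of_conj {τ : List ℕ → Bool} {h : X → X} (hm : Measurable h)
    (hF : ∀ᵐ x ∂mu, h (Fm τ 1 x) = Fm τ 0 (h x)) :
    ∃ b : ℕ → ℕ, ∀ n, τ (Pool.Agent.H418R3.Gur.br b (n + 1)) = true := by
  obtain ⟨f, hf⟩ := exists_sol hm hF
  exact branch_of_sol hf

end Pool.Agent.W922.MD
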