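import Mathlib
import Pool.Agent.W922.MD.MRed
import Pool.Agent.W922.MD.Defs

/-!
# The systems are measure distal
-/

set_option autoImplicit false

open Filter Topology Set MeasureTheory
open scoped ComplexConjugate ENNReal InnerProductSpace

namespace Pool.Agent.W922.MD

/-! ### Transport -/

section Transport

section

variable {X Y : Type} {A B : MeasurableSpace X} [mX : MeasurableSpace X] [mY : MeasurableSpace Y]
  {μ : Measure X} {ν : Measure Y} (e : X ≃ᵐ Y) (he : MeasurePreserving e μ ν)

include he in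
theorem AELe.conj (h : AELe A B μ) : AELe (A.comap e.symm) (B.comap e.symm) ν := by
  rintro _ ⟨s, hs, rfl⟩
  obtain ⟨t, ht, hst⟩ := h s hs
  exact ⟨_, ⟨t, ht, rfl⟩,
    (MeasurePreserving.symm e he).quasiMeasurePreserving.preimage_ae_eq hst⟩

include he in
theorem AEEq.conj (h : AEEq A B μ) : AEEq (A.comap e.symm) (B.comap e.symm) ν :=
  ⟨h.1.conj e he, h.2.conj e he⟩

include he in
theorem IsFactor.conj {T : X → X} (h : IsFactor A μ T) :
    IsFactor (A.comap e.symm) ν (fun y => e (T (e.symm y))) := by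
  refine ⟨?_, ?_⟩
  · rintro _ ⟨s, hs, rfl⟩
    exact e.symm.measurable (h.1 s hs)
  · have h1 : (A.comap e.symm).comap (fun y => e (T (e.symm y))) = (A.comap T).comap e.symm := by
      rw [MeasurableSpace.comap_comp, MeasurableSpace.comap_comp]
      congr 1
      funext y
      exact e.symm_apply_apply _
    rw [h1]
    exact h.2.conj e he

theorem BddMeas.conj {f : X → ℂ} (h : BddMeas A f) :
    BddMeas (A.comap e.symm) (fun y => f (e.symm y)) := by
  refine ⟨?_, ?_⟩
  · have h1 : Measurable[A.comap e.symm] (fun y => f (e.symm y)) := by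
      intro s hs
      exact ⟨f ⁻¹' s, h.1.measurable hs, rfl⟩
    exact h1.stronglyMeasurable
  · obtain ⟨C, hC⟩ := h.2
    exact ⟨C, fun y => hC _⟩

include he in
theorem IsometricExt.conj {T : X → X} (hA : A ≤ mX) (h : IsometricExt A B μ T) :
    IsometricExt (A.comap e.symm) (B.comap e.symm) ν (fun y => e (T (e.symm y))) := by
  have he' := MeasurePreserving.symm e he
  refine ⟨h.1.conj e he, fun g hg hgB ε hε => ?_⟩
  have h1 : StronglyMeasurable[B] (fun x => g (e x)) := by
    have h2 : Measurable[B] (fun x => g (e x)) := by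
      intro s hs
      obtain ⟨t, ht, hts⟩ := hgB.measurable hs
      have h3 : (fun x => g (e x)) ⁻¹' s = t := by
        have h4 : (fun x => g (e x)) ⁻¹' s = e ⁻¹' (g ⁻¹' s) := rfl
        rw [h4, ← hts]
        ext x
        show e.symm (e x) ∈ t ↔ _
        rw [e.symm_apply_apply]
      rw [h3]
      exact ht
    exact h2.stronglyMeasurable
  obtain ⟨r, u, c, ⟨hu, a, ha, hau⟩, hc, hn⟩ := h.2 (fun x => g (e x))
    (hg.comp_measurePreserving he) h1 ε hε
  refine ⟨r, fun j y => u j (e.symm y), fun j y => c j (e.symm y), ⟨fun i => ⟨?_, ?_⟩,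
    fun i j y => a i j (e.symm y), fun i j => (ha i j).conj e, fun i => ?_⟩,
    fun j => (hc j).conj e, ?_⟩
  · exact (hu i).1.comp_measurePreserving he'
  · have h2 : Measurable[B.comap e.symm] (fun y => u i (e.symm y)) := by
      intro s hs
      exact ⟨u i ⁻¹' s, (hu i).2.measurable hs, rfl⟩
    exact h2.stronglyMeasurable
  · have h2 := he'.quasiMeasurePreserving.ae (hau i)
    filter_upwards [h2] with y hy
    show u i (e.symm (e (T (e.symm y)))) = _
    rw [e.symm_apply_apply]
    exact hy
  · have h2 : (fun y => g y - ∑ j, c j (e.symm y) * u j (e.symm y)) =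
        (fun x => g (e x) - ∑ j, c j x * u j x) ∘ e.symm := by
      funext y
      show _ = g (e (e.symm y)) - _
      rw [e.apply_symm_apply]
    rw [h2, eLpNorm_comp_measurePreserving _ he']
    · exact hn
    · refine ((hg.comp_measurePreserving he).aestronglyMeasurable).sub ?_
      refine Finset.aestronglyMeasurable_fun_sum _ fun j _ => ?_
      exact (((hc j).1.mono hA).aestronglyMeasurable).mul (hu j).1.aestronglyMeasurable

end

theorem MeasureDistal.conj {X Y : Type} [mX : MeasurableSpace X] [mY : MeasurableSpace Y]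
    {μ : Measure X} {ν : Measure Y} (e : X ≃ᵐ Y) (he : MeasurePreserving e μ ν) {T : X → X}
    (h : MeasureDistal μ T) : MeasureDistal ν (fun y => e (T (e.symm y))) := by
  obtain ⟨η, A, h1, h2, h3, h4, h5⟩ := h
  refine ⟨η, fun α => (A α).comap e.symm, fun α hα => (h1 α hα).conj e he, ?_, ?_,
    fun α hα => (h4 α hα).conj e he (h1 α hα.le).1, fun α hα hl => ?_⟩
  · have := h2.conj e he
    rwa [MeasurableSpace.comap_bot] at this
  · have := h3.conj e he
    rwa [e.symm.measurableEmbedding.comap_eq] at this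
  · have := (h5 α hα hl).conj e he
    rwa [MeasurableSpace.comap_iSup] at this

end Transport

/-! ### The levels -/

open Pool.Agent.W922.Dis

/-- rank of a coordinate -/
def rk : Ix → ℕ
  | .c => 0
  | .a _ => 0
  | .e _ => 1
  | .r _ => 2

theorem im_rk {τ : List ℕ → Bool} {b : ℤ} {i k : Ix} (h : (im τ b i) k ≠ 0) : rk k < rk i := by
  rcases i with _ | j | j | (_ | ⟨⟨⟩, s, n⟩)
  · exact absurd rfl h
  · exact absurd rfl h
  · rw [im_e] at h
    rcases k with _ | j' | j' | q
    · exact one_pos
    · exact one_pos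
    · simp at h
    · simp at h
  all_goals
    rcases k with _ | j' | j' | q
    · exact two_pos
    · exact two_pos
    · exact one_lt_two
    · exfalso
      apply h
      simp [im]

/-- the levels -/
def lev (n : ℕ) : Set Ix := {i | rk i < n}

/-- characters of a level -/
def DL (n : ℕ) : Set D := {d | ∀ k, d k ≠ 0 → rk k < n}

theorem Nb_DL {τ : List ℕ → Bool} {b : ℤ} {n : ℕ} {d : D} (hd : d ∈ DL (n + 1)) :
    Nb τ b d ∈ DL n := by
  intro k hk
  have h1 : (Nb τ b d) k = ∑ i ∈ d.support, d i * (im τ b i) k := by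
    unfold Nb ev
    rw [Finsupp.liftAddHom_apply, Finsupp.sum, Finsupp.finsetSum_apply]
    rfl
  rw [h1] at hk
  obtain ⟨i, hi, hne⟩ := Finset.exists_ne_zero_of_sum_ne_zero hk
  have h2 := im_rk (right_ne_zero_of_mul hne)
  have h3 := hd i (left_ne_zero_of_mul hne)
  omega

theorem DL_mono {n n' : ℕ} (h : n ≤ n') : DL n ⊆ DL n' := fun _ hd k hk =>
  (hd k hk).trans_le h

theorem single_DL {n : ℕ} {i : Ix} (hi : i ∈ lev n) (c : ℤ) : (Finsupp.single i c : D) ∈ DL n := by
  intro k hk
  have : k = i := by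
    by_contra hne
    rw [Finsupp.single_eq_of_ne hne] at hk
    exact hk rfl
  rw [this]
  exact hi

theorem im_DL {τ : List ℕ → Bool} {b : ℤ} {n : ℕ} {i : Ix} (hi : i ∈ lev (n + 1)) :
    im τ b i ∈ DL n := by
  intro k hk
  have h1 := im_rk hk
  have h2 : rk i < n + 1 := hi
  omega

/-- sub-σ-algebra of a level -/
@[instance_reducible] def sg (n : ℕ) : MeasurableSpace X :=
  ⨆ i : lev n, (inferInstance : MeasurableSpace Ci).comap (fun x : X => x i.1)

theorem sg_le (n : ℕ) : sg n ≤ MeasurableSpace.pi := by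
  refine iSup_le fun i => ?_
  exact (measurable_pi_apply i.1).comap_le

theorem coord_meas {n : ℕ} {i : Ix} (hi : i ∈ lev n) : Measurable[sg n] fun x : X => x i := by
  rw [measurable_iff_comap_le]
  exact le_iSup (fun i : lev n => (inferInstance : MeasurableSpace Ci).comap
    (fun x : X => x i.1)) ⟨i, hi⟩

theorem prH_sum (x : X) (d : D) : prH x d = ∑ i ∈ d.support, d i • x i := by
  rw [prH_apply]
  unfold ev
  rw [Finsupp.liftAddHom_apply]
  rfl

theorem prH_meas {n : ℕ} {d : D} (hd : d ∈ DL n) : Measurable[sg n] fun x : X => prH x d := by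
  simp_rw [prH_sum]
  exact Finset.measurable_fun_sum d.support fun i hi =>
    (continuous_zsmul (d i)).measurable.comp (coord_meas (hd i (Finsupp.mem_support_iff.1 hi)))

theorem ch_meas {n : ℕ} {d : D} (hd : d ∈ DL n) : StronglyMeasurable[sg n] (ch d) := by
  have h1 : Measurable[sg n] (ch d) := ex_cont.measurable.comp (prH_meas hd)
  exact h1.stronglyMeasurable

theorem ch_bdd {n : ℕ} {d : D} (hd : d ∈ DL n) : BddMeas (sg n) (ch d) :=
  ⟨ch_meas hd, 1, fun x => (ch_norm d x).le⟩

theorem BddMeas.const_mul {Y : Type} {A : MeasurableSpace Y} {f : Y → ℂ} (h : BddMeas A f)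
    (c : ℂ) : BddMeas A (fun x => c * f x) := by
  obtain ⟨h1, C, hC⟩ := h
  refine ⟨h1.const_mul c, ‖c‖ * C, fun x => ?_⟩
  rw [norm_mul]
  exact mul_le_mul_of_nonneg_left (hC x) (norm_nonneg _)

theorem BddMeas.const {Y : Type} {A : MeasurableSpace Y} (c : ℂ) : BddMeas A (fun _ => c) :=
  ⟨stronglyMeasurable_const, ‖c‖, fun _ => le_rfl⟩

/-- functions of a level are invariant under translations along the other coordinates -/
theorem sg_inv {n : ℕ} {s : Set X} (hs : MeasurableSet[sg n] s) {y : X} (hy : ∀ i ∈ lev n, y i = 0)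
    (x : X) : x + y ∈ s ↔ x ∈ s := by
  let res : X → (lev n → Ci) := fun x i => x i.1
  have h1 : sg n ≤ MeasurableSpace.pi.comap res := by
    refine iSup_le fun i => ?_
    have h2 : (fun x : X => x i.1) = (fun z : lev n → Ci => z i) ∘ res := rfl
    rw [h2, ← MeasurableSpace.comap_comp]
    exact MeasurableSpace.comap_mono (measurable_pi_apply i).comap_le
  obtain ⟨t, -, rfl⟩ := h1 s hs
  show res (x + y) ∈ t ↔ res x ∈ t
  have h3 : res (x + y) = res x := by
    funext i
    show x i.1 + y i.1 = x i.1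
    rw [hy i.1 i.2, add_zero]
  rw [h3]

theorem fun_inv {n : ℕ} {g : X → ℂ} (hg : StronglyMeasurable[sg n] g) {y : X}
    (hy : ∀ i ∈ lev n, y i = 0) (x : X) : g (x + y) = g x := by
  have h1 : MeasurableSet[sg n] (g ⁻¹' {g x}) := hg.measurable (measurableSet_singleton _)
  exact (sg_inv h1 hy x).2 rfl

theorem co_level {n : ℕ} {g : X → ℂ} (hg : StronglyMeasurable[sg n] g) {d : D} (hd : d ∉ DL n) :
    co g d = 0 := by
  have h0 : ∃ k, d k ≠ 0 ∧ ¬ rk k < n := by
    by_contra hcon
    push Not at hcon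
    exact hd hcon
  obtain ⟨i, hi, hin⟩ := h0
  obtain ⟨t, ht⟩ := exists_pt hi
  have hy : ∀ k ∈ lev n, (Pi.single i t : X) k = 0 := by
    intro k hk
    refine Pi.single_eq_of_ne ?_ _
    rintro rfl
    exact hin hk
  have h1 := integral_translate (fun x => g x * conj (ch d x)) (Pi.single i t)
  have h2 : (∫ x, g (x + Pi.single i t) * conj (ch d (x + Pi.single i t)) ∂mu) =
      (∫ x, g x * conj (ch d x) ∂mu) * conj (ch d (Pi.single i t)) := by
    rw [← integral_mul_const]
    refine integral_congr_ae (Eventually.of_forall fun x => ?_)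
    simp only
    rw [fun_inv hg hy, ch_add_pt, map_mul]
    ring
  have h3 : co g d * (conj (ch d (Pi.single i t)) - 1) = 0 := by
    rw [mul_sub, mul_one]
    unfold co
    rw [← h2, sub_eq_zero]
    exact h1
  rcases mul_eq_zero.1 h3 with h4 | h4
  · exact h4
  · exfalso
    apply ht
    have h5 := congrArg conj (sub_eq_zero.1 h4)
    simpa using h5

/-- approximation by trigonometric polynomials of the level -/
theorem approx {n : ℕ} {g : X → ℂ} (hg : MemLp g 2 mu) (hgm : StronglyMeasurable[sg n] g) {ε : ℝ}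
    (hε : 0 < ε) : ∃ s : Finset D, (∀ d ∈ s, d ∈ DL n) ∧
      eLpNorm (fun x => g x - ∑ d ∈ s, co g d * ch d x) 2 mu < ENNReal.ofReal ε := by
  classical
  have h1 := bas.hasSum_repr (hg.toLp g)
  obtain ⟨s, hs⟩ := (Metric.tendsto_nhds.1 h1 ε hε).exists
  refine ⟨s.filter (fun d => d ∈ DL n), fun d hd => (Finset.mem_filter.1 hd).2, ?_⟩
  have h2 : ∑ i ∈ s, bas.repr (hg.toLp g) i • bas i =
      ∑ d ∈ s.filter (fun d => d ∈ DL n), co g d • chL d := by
    rw [Finset.sum_filter]
    refine Finset.sum_congr rfl fun d _ => ?_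
    rw [bas.repr_apply_apply, bas_apply, co_toLp]
    split_ifs with hd
    · rfl
    · rw [co_level hgm hd, zero_smul]
  rw [h2] at hs
  have h3 : MemLp (fun x => g x - ∑ d ∈ s.filter (fun d => d ∈ DL n), co g d * ch d x) 2 mu := by
    refine hg.sub ?_
    exact memLp_finsetSum _ fun d _ => (memLp_ch d).const_mul _
  have h4 : h3.toLp _ = hg.toLp g - ∑ d ∈ s.filter (fun d => d ∈ DL n), co g d • chL d := by
    rw [← Lp.toLp_coeFn (hg.toLp g - ∑ d ∈ s.filter (fun d => d ∈ DL n), co g d • chL d)
      (Lp.memLp _), MemLp.toLp_eq_toLp_iff]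
    have h5 := Lp.coeFn_sub (hg.toLp g) (∑ d ∈ s.filter (fun d => d ∈ DL n), co g d • chL d)
    have h6 := hg.coeFn_toLp
    have h7 := Lp.coeFn_finsetSum (s.filter (fun d => d ∈ DL n)) (fun d => co g d • chL d)
    have h9 : ∀ᵐ x ∂mu, ∀ d ∈ s.filter (fun d => d ∈ DL n),
        ((co g d • chL d : Lp ℂ 2 mu) : X → ℂ) x = co g d * ch d x := by
      rw [Filter.eventually_all_finset]
      intro d _
      filter_upwards [Lp.coeFn_smul (co g d) (chL d), chL_coe d] with x e1 e2
      rw [e1, Pi.smul_apply, e2, smul_eq_mul]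
    filter_upwards [h5, h6, h7, h9] with x e1 e2 e3 e4
    rw [e1, Pi.sub_apply, e2, e3, Finset.sum_apply]
    congr 1
    exact (Finset.sum_congr rfl fun d hd => e4 d hd).symm
  have h8 : ‖h3.toLp _‖ < ε := by
    rw [h4, ← dist_eq_norm, dist_comm]
    exact hs
  rw [Lp.norm_toLp] at h8
  exact (ENNReal.lt_ofReal_iff_toReal_lt h3.2.ne).2 h8

theorem sg_mono {n n' : ℕ} (h : n ≤ n') : sg n ≤ sg n' := by
  refine iSup_le fun i => ?_
  have h1 : i.1 ∈ lev n' := lt_of_lt_of_le i.2 h
  exact (coord_meas h1).comap_le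

theorem isometric (τ : List ℕ → Bool) (b : ℤ) (n : ℕ) :
    IsometricExt (sg n) (sg (n + 1)) mu (Fm τ b) := by
  refine ⟨.of_le (sg_mono (Nat.le_succ n)), fun g hg hgm ε hε => ?_⟩
  obtain ⟨s, hs, hlt⟩ := approx hg hgm hε
  let E := s.equivFin
  let dd : Fin s.card → D := fun j => (E.symm j).1
  have hdd : ∀ j, dd j ∈ DL (n + 1) := fun j => hs _ (E.symm j).2
  refine ⟨s.card, fun j => ch (dd j), fun j _ => co g (dd j), ⟨fun i => ⟨memLp_ch _,
    ch_meas (hdd i)⟩, fun i j x => if i = j then ex (bH (dd i)) * ch (Nb τ b (dd i)) x else 0,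
    fun i j => ?_, fun i => ?_⟩, fun j => .const _, ?_⟩
  · by_cases hij : i = j
    · simp only [if_pos hij]
      exact (ch_bdd (Nb_DL (hdd i))).const_mul _
    · simp only [if_neg hij]
      exact .const 0
  · refine Eventually.of_forall fun x => ?_
    simp only [ite_mul, zero_mul, Finset.sum_ite_eq, Finset.mem_univ, if_true]
    rw [ch_Fm]
    ring
  · have h1 : (fun x => g x - ∑ j : Fin s.card, co g (dd j) * ch (dd j) x) =
        fun x => g x - ∑ d ∈ s, co g d * ch d x := by
      funext x
      congr 1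
      rw [← Finset.sum_coe_sort s (fun d => co g d * ch d x)]
      exact Equiv.sum_comp E.symm (fun d : s => co g d.1 * ch d.1 x)
    rw [h1]
    exact hlt

theorem factor (τ : List ℕ → Bool) (b : ℤ) (n : ℕ) : IsFactor (sg n) mu (Fm τ b) := by
  refine ⟨sg_le n, ?_⟩
  have h1 : (sg n).comap (Fm τ b) = sg n := by
    refine le_antisymm ?_ ?_
    · unfold sg
      rw [MeasurableSpace.comap_iSup]
      refine iSup_le fun i => ?_
      rw [MeasurableSpace.comap_comp]
      have h2 : Measurable[sg n] ((fun x : X => x i.1) ∘ Fm τ b) := by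
        have h3 : Measurable[sg n] fun x : X => x i.1 + prH x (im τ b i.1) + bt i.1 :=
          ((coord_meas i.2).add (prH_meas (im_DL (Nat.lt_succ_of_lt i.2)))).add_const _
        exact h3
      exact h2.comap_le
    · refine iSup_le fun i => ?_
      rw [← measurable_iff_comap_le]
      have h2 : (fun x : X => x i.1) = (fun y : X => prH (y - bt)
          (Finsupp.single i.1 1 - im τ b i.1 + Nb τ b (im τ b i.1))) ∘ Fm τ b := by
        funext x
        show x i.1 = Gm τ b (Fm τ b x) i.1
        rw [Gm_Fm]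
      rw [h2]
      have h3 : im τ b i.1 ∈ DL n := im_DL (Nat.lt_succ_of_lt i.2)
      have h4 : (Finsupp.single i.1 1 - im τ b i.1 + Nb τ b (im τ b i.1) : D) ∈ DL n := by
        intro k hk
        by_contra hcon
        apply hk
        have e1 : (Finsupp.single i.1 (1 : ℤ) : D) k = 0 := by
          by_contra h; exact hcon (single_DL i.2 1 k h)
        have e2 : (im τ b i.1) k = 0 := by
          by_contra h; exact hcon (h3 k h)
        have e3 : (Nb τ b (im τ b i.1)) k = 0 := by
          by_contra h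
          exact hcon (Nb_DL (DL_mono (Nat.le_succ n) h3) k h)
        rw [Finsupp.add_apply, Finsupp.sub_apply, e1, e2, e3, sub_zero, add_zero]
      have h5 : Measurable[sg n] (fun y : X => prH (y - bt)
          (Finsupp.single i.1 1 - im τ b i.1 + Nb τ b (im τ b i.1))) := by
        have h6 : Measurable[sg n] (fun y : X => prH y
            (Finsupp.single i.1 1 - im τ b i.1 + Nb τ b (im τ b i.1)) - prH bt
            (Finsupp.single i.1 1 - im τ b i.1 + Nb τ b (im τ b i.1))) :=
          (prH_meas h4).sub_const _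
        have h7 : (fun y : X => prH (y - bt)
            (Finsupp.single i.1 1 - im τ b i.1 + Nb τ b (im τ b i.1))) = (fun y : X => prH y
            (Finsupp.single i.1 1 - im τ b i.1 + Nb τ b (im τ b i.1)) - prH bt
            (Finsupp.single i.1 1 - im τ b i.1 + Nb τ b (im τ b i.1))) := by
          funext y
          rw [map_sub, AddMonoidHom.sub_apply]
        rw [h7]
        exact h6
      intro s hs
      exact ⟨_, h5 hs, rfl⟩
  rw [h1]
  exact .refl _

theorem distal (τ : List ℕ → Bool) (b : ℤ) : MeasureDistal mu (Fm τ b) := by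
  refine measureDistal_of_finite 3 sg (fun i _ => factor τ b i) ?_ ?_
    fun i _ => isometric τ b i
  · have : IsEmpty (lev 0) := ⟨fun i => Nat.not_lt_zero _ i.2⟩
    unfold sg
    exact iSup_of_empty _
  · refine le_antisymm (sg_le 3) ?_
    have h1 : ∀ i : Ix, i ∈ lev 3 := by
      intro i
      rcases i with _ | j | j | q
      · show 0 < 3; norm_num
      · show 0 < 3; norm_num
      · show 1 < 3; norm_num
      · show 2 < 3; norm_num
    refine iSup_le fun i => ?_
    exact (coord_meas (h1 i)).comap_le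

end Pool.Agent.W922.MD
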