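import Mathlib
import Pool.Agent.W922.MD.Dist

/-!
# Continuity in the weak topology
-/

set_option autoImplicit false

open Filter Topology Set MeasureTheory

namespace Pool.Agent.W922.MD

theorem continuous_meas {Y Z : Type} [TopologicalSpace Y] [NormalSpace Y] [MeasurableSpace Y]
    [BorelSpace Y] {ν : Measure Y} [IsProbabilityMeasure ν] [ν.WeaklyRegular]
    [TopologicalSpace Z] [FirstCountableTopology Z]
    (F : Z → Y → Y) (hF : ∀ x, Continuous fun z => F z x)
    (hmp : ∀ z, MeasurePreserving (F z) ν ν)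
    (A B : Set Y) (hA : MeasurableSet A) :
    Continuous fun z : Z => ν.real ((F z) ⁻¹' A ∩ B) := by
  have hval : ∀ z, ν.real ((F z) ⁻¹' A ∩ B) =
      ∫ x in B, A.indicator (fun _ => (1:ℝ)) (F z x) ∂ν := by
    intro z
    have h1 : (fun x => A.indicator (fun _ => (1:ℝ)) (F z x)) =
        ((F z) ⁻¹' A).indicator (fun _ => (1:ℝ)) := by
      ext x; rfl
    have h2 : MeasurableSet ((F z) ⁻¹' A) := (hmp z).measurable hA
    rw [h1, integral_indicator h2, setIntegral_const]
    simp only [smul_eq_mul, mul_one]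
    rw [measureReal_restrict_apply h2]
  simp only [hval]
  have hint : Integrable (A.indicator (fun _ => (1:ℝ))) ν := (integrable_const 1).indicator hA
  refine continuous_of_uniform_approx_of_continuous fun u hu => ?_
  obtain ⟨ε, hε, hεu⟩ := Metric.mem_uniformity_dist.1 hu
  obtain ⟨g, hg1, hg2⟩ := hint.exists_boundedContinuous_integral_sub_le (half_pos hε)
  refine ⟨fun z => ∫ x in B, g (F z x) ∂ν, ?_, fun z => hεu ?_⟩
  · refine continuous_of_dominated (bound := fun _ => ‖g‖) ?_ ?_ ?_ ?_
    · intro z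
      exact (g.continuous.measurable.comp (hmp z).measurable).aestronglyMeasurable
    · intro z
      exact Eventually.of_forall fun x => g.norm_coe_le_norm _
    · exact integrable_const _
    · exact Eventually.of_forall fun x => g.continuous.comp (hF x)
  · have hT := hmp z
    have i1 : Integrable (fun x => A.indicator (fun _ => (1:ℝ)) (F z x)) ν :=
      hT.integrable_comp_of_integrable hint
    have i2 : Integrable (fun x => g (F z x)) ν := hT.integrable_comp_of_integrable hg2
    rw [dist_eq_norm, ← integral_sub i1.restrict i2.restrict]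
    calc ‖∫ x in B, (A.indicator (fun _ => (1:ℝ)) (F z x) - g (F z x)) ∂ν‖
        ≤ ∫ x in B, ‖A.indicator (fun _ => (1:ℝ)) (F z x) - g (F z x)‖ ∂ν :=
          norm_integral_le_integral_norm _
      _ ≤ ∫ x, ‖A.indicator (fun _ => (1:ℝ)) (F z x) - g (F z x)‖ ∂ν :=
          setIntegral_le_integral (i1.sub i2).norm (Eventually.of_forall fun x => norm_nonneg _)
      _ = ∫ x, ‖A.indicator (fun _ => (1:ℝ)) x - g x‖ ∂ν := by
          have h3 : AEStronglyMeasurable (fun x => ‖A.indicator (fun _ => (1:ℝ)) x - g x‖)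
              (ν.map (F z)) := by
            rw [hT.map_eq]
            exact (hint.sub hg2).norm.aestronglyMeasurable
          have h4 := integral_map hT.measurable.aemeasurable h3
          rw [hT.map_eq] at h4
          exact h4.symm
      _ ≤ ε / 2 := hg1
      _ < ε := half_lt_self hε

open Pool.Agent.W922.Dis

theorem continuous_meas_Fm (b : ℤ) (A B : Set X) (hA : MeasurableSet A) :
    Continuous fun τ : List ℕ → Bool => mu.real ((Fm τ b) ⁻¹' A ∩ B) := by
  have h0 : ∀ x : X, Continuous fun τ : List ℕ → Bool => Fm τ b x := by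
    intro x
    have h5 : Continuous fun τ : List ℕ → Bool => ((τ, x) : (List ℕ → Bool) × X) :=
      continuous_id.prodMk continuous_const
    have h6 : Continuous ((fun p : (List ℕ → Bool) × X => Fm p.1 b p.2) ∘
      fun τ : List ℕ → Bool => ((τ, x) : (List ℕ → Bool) × X)) := (Fm_cont2 b).comp h5
    exact h6.congr fun τ => rfl
  exact continuous_meas (fun τ => Fm τ b) h0 (fun τ => mp_Fm τ b) A B hA

instance : NullSingletonClass mu := by
  have h0 : ∀ U ∈ 𝓝 (0 : Ci), ∃ t ∈ U, t ≠ 0 := by
    intro U hU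
    have h1 : Tendsto (fun n : ℕ => ((1 / ((n : ℝ) + 2) : ℝ) : Ci)) atTop (𝓝 0) := by
      have h2 : Tendsto (fun n : ℕ => (1 / ((n : ℝ) + 2) : ℝ)) atTop (𝓝 0) := by
        have h3 := tendsto_one_div_add_atTop_nhds_zero_nat (𝕜 := ℝ)
        have h4 := h3.comp (tendsto_add_atTop_nat 1)
        refine h4.congr fun n => ?_
        simp only [Function.comp_apply, Nat.cast_add, Nat.cast_one]
        ring
      have h5 : Continuous (fun x : ℝ => (x : Ci)) := AddCircle.continuous_mk' 1
      have h6 := (h5.tendsto 0).comp h2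
      exact h6
    obtain ⟨n, hn⟩ := (h1.eventually hU).exists
    refine ⟨_, hn, fun h2 => ?_⟩
    rw [AddCircle.coe_eq_zero_iff] at h2
    obtain ⟨k, hk⟩ := h2
    rw [zsmul_eq_mul, mul_one] at hk
    have h3 : (0 : ℝ) < 1 / ((n : ℝ) + 2) := by positivity
    have h4 : 1 / ((n : ℝ) + 2) < 1 := by
      rw [div_lt_one (by positivity)]
      have : (0 : ℝ) ≤ n := Nat.cast_nonneg n
      linarith
    rw [← hk] at h3 h4
    have h5 : 0 < k := by exact_mod_cast h3
    have h6 : k < 1 := by exact_mod_cast h4
    omega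
  have : (𝓝[≠] (0 : X)).NeBot := by
    rw [← mem_closure_iff_nhdsWithin_neBot, mem_closure_iff_nhds]
    intro U hU
    have h1 : Continuous fun t : Ci => (Pi.single Ix.c t : X) :=
      continuous_single (A := fun _ : Ix => Ci) Ix.c
    have h2 : (fun t : Ci => (Pi.single Ix.c t : X)) ⁻¹' U ∈ 𝓝 (0 : Ci) := by
      refine h1.continuousAt.preimage_mem_nhds ?_
      rw [Pi.single_zero]
      exact hU
    obtain ⟨t, ht, hne⟩ := h0 _ h2
    refine ⟨Pi.single Ix.c t, ht, fun h3 => hne ?_⟩
    have h4 := congrFun h3 Ix.c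
    rw [Pi.single_eq_same] at h4
    exact h4
  exact Measure.IsAddHaarMeasure.nullSingletonClass mu

end Pool.Agent.W922.MD
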